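import Mathlib

/-!
# The Cantor-cube permutation model

The ground model `V` of ZFA + AC (cumulative hierarchy over the set of atoms), the group `G`,
the ideal of supports, the permutation model `InN`, and the relativised notions of compact,
metrizable and separable spaces.
-/

set_option autoImplicit false

namespace Pool.Agent.MP_0aaa5a_lc

/-- The Cantor cube `2^ω` (with the product topology). -/
abbrev Cantor : Type := ℕ → Bool

/-- The atoms: `(n, f)` is the atom `a_{n,f}`. So `A_n` is the set of atoms with first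
coordinate `n`. -/
abbrev Atom : Type := ℕ × Cantor

/-- Pre-sets over the atoms: an atom, or a small family of pre-sets. -/
inductive PreSet : Type 1
  | atom : Atom → PreSet
  | mk : (ι : Type) → (ι → PreSet) → PreSet

namespace PreSet

/-- Extensional equality of pre-sets. -/
def Equiv : PreSet → PreSet → Prop
  | atom a, atom b => a = b
  | atom _, mk _ _ => False
  | mk _ _, atom _ => False
  | mk _ f, mk _ g => (∀ i, ∃ j, Equiv (f i) (g j)) ∧ (∀ j, ∃ i, Equiv (f i) (g j))

/-- Being (a code of) a set, that is, not an atom. -/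
def IsSet : PreSet → Prop
  | atom _ => False
  | mk _ _ => True

/-- Membership of pre-sets. -/
def Mem (x : PreSet) : PreSet → Prop
  | atom _ => False
  | mk _ f => ∃ i, Equiv x (f i)

/-- The action of permutations of the atoms on pre-sets. -/
def act (φ : _root_.Equiv.Perm Atom) : PreSet → PreSet
  | atom a => atom (φ a)
  | mk ι f => mk ι (fun i => act φ (f i))

theorem Equiv.refl : ∀ x : PreSet, Equiv x x
  | atom _ => rfl
  | mk _ f => ⟨fun i => ⟨i, Equiv.refl (f i)⟩, fun i => ⟨i, Equiv.refl (f i)⟩⟩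

theorem Equiv.symm : ∀ {x y : PreSet}, Equiv x y → Equiv y x
  | atom _, atom _, h => Eq.symm h
  | mk _ _, mk _ _, h =>
    ⟨fun j => (h.2 j).imp fun _ h' => Equiv.symm h', fun i => (h.1 i).imp fun _ h' => Equiv.symm h'⟩

theorem Equiv.trans : ∀ {x y z : PreSet}, Equiv x y → Equiv y z → Equiv x z
  | atom _, atom _, atom _, h1, h2 => Eq.trans h1 h2
  | mk _ _, mk _ _, mk _ _, h1, h2 =>
    ⟨fun i => by
      obtain ⟨j, hj⟩ := h1.1 i
      obtain ⟨k, hk⟩ := h2.1 j
      exact ⟨k, Equiv.trans hj hk⟩,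
    fun k => by
      obtain ⟨j, hj⟩ := h2.2 k
      obtain ⟨i, hi⟩ := h1.2 j
      exact ⟨i, Equiv.trans hi hj⟩⟩

/-- The setoid of extensional equality. -/
instance setoid : Setoid PreSet := ⟨Equiv, Equiv.refl, Equiv.symm, Equiv.trans⟩

theorem act_equiv (φ : _root_.Equiv.Perm Atom) :
    ∀ {x y : PreSet}, Equiv x y → Equiv (act φ x) (act φ y)
  | atom _, atom _, h => congrArg φ h
  | mk _ _, mk _ _, h =>
    ⟨fun i => (h.1 i).imp fun _ h' => act_equiv φ h', fun j => (h.2 j).imp fun _ h' => act_equiv φ h'⟩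

theorem isSet_congr : ∀ {x y : PreSet}, Equiv x y → (IsSet x ↔ IsSet y)
  | atom _, atom _, _ => Iff.rfl
  | mk _ _, mk _ _, _ => Iff.rfl

theorem mem_congr {x x' : PreSet} (hx : Equiv x x') :
    ∀ {y y' : PreSet}, Equiv y y' → (Mem x y ↔ Mem x' y')
  | atom _, atom _, _ => Iff.rfl
  | mk _ _, mk _ _, h => by
    constructor
    · rintro ⟨i, hi⟩
      obtain ⟨j, hj⟩ := h.1 i
      exact ⟨j, (hx.symm.trans hi).trans hj⟩
    · rintro ⟨j, hj⟩
      obtain ⟨i, hi⟩ := h.2 j
      exact ⟨i, (hx.trans hj).trans hi.symm⟩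

end PreSet

/-- The ground model: the universe of sets over the atoms, a universe of ZFA with choice. -/
def V : Type 1 := Quotient PreSet.setoid

namespace V

/-- The atoms, as elements of the universe. -/
def atom (a : Atom) : V := Quotient.mk _ (PreSet.atom a)

/-- Being a set, that is, not an atom. -/
def IsSet (x : V) : Prop :=
  Quotient.liftOn x PreSet.IsSet (fun _ _ h => propext (PreSet.isSet_congr h))

/-- Membership. -/
def Mem (x y : V) : Prop :=
  Quotient.liftOn₂ x y PreSet.Mem (fun _ _ _ _ h1 h2 => propext (PreSet.mem_congr h1 h2))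

instance : Membership V V := ⟨fun y x => Mem x y⟩

/-- The set of all members of a family indexed by a (small) type. -/
noncomputable def ofFam {ι : Type} (f : ι → V) : V :=
  Quotient.mk _ (PreSet.mk ι (fun i => (f i).out))

/-- The action of a permutation of the atoms on the universe. -/
def act (φ : Equiv.Perm Atom) (x : V) : V :=
  Quotient.map (PreSet.act φ) (fun _ _ h => PreSet.act_equiv φ h) x

/-- The unordered pair `{x, y}`. -/
noncomputable def upair (x y : V) : V := ofFam (fun b : Bool => cond b x y)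

/-- The Kuratowski ordered pair `(x, y) = {{x}, {x, y}}`. -/
noncomputable def pair (x y : V) : V := upair (upair x x) (upair x y)

/-- The von Neumann natural numbers: `n = {0, …, n - 1}`. -/
noncomputable def nat : ℕ → V
  | n => ofFam (fun i : Fin n => nat i.1)
decreasing_by exact i.2

/-- The set `ω`. -/
noncomputable def omega : V := ofFam nat

/-- The real number `r`, as the set of (codes of) all rational numbers below `r`
(a lower Dedekind cut). -/
noncomputable def real (r : ℝ) : V :=
  ofFam (fun q : {q : ℚ // (q : ℝ) < r} => nat (Encodable.encode q.1))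

/-- `x ⊆ y`. -/
def Sub (x y : V) : Prop := ∀ z : V, z ∈ x → z ∈ y

end V

open V

/-- The group `G`: all permutations of the atoms whose restriction to every `A_n` is an
autohomeomorphism of the Cantor cube `A_n`. -/
def IsInG (φ : Equiv.Perm Atom) : Prop :=
  ∀ n : ℕ, ∃ h : Cantor ≃ₜ Cantor, ∀ f : Cantor, φ (n, f) = (n, h f)

/-- The ideal of supports: all `E` contained in the union of finitely many of the `A_n`. -/
def IsSupportSet (E : Set Atom) : Prop := ∃ S : Finset ℕ, ∀ a ∈ E, a.1 ∈ S

/-- `fix_G(E) ⊆ sym_G(x)` for some `E` in the ideal. -/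
def IsSymmetric (x : V) : Prop :=
  ∃ E : Set Atom, IsSupportSet E ∧
    ∀ φ : Equiv.Perm Atom, IsInG φ → (∀ a ∈ E, φ a = a) → act φ x = x

/-- Membership in the transitive closure of `{x}`. -/
def InTC (t x : V) : Prop := Relation.ReflTransGen (fun a b : V => a ∈ b) t x

/-- The permutation model: `x` is in the model iff every member of the transitive closure of `{x}`
is symmetric. -/
def InN (x : V) : Prop := ∀ t : V, InTC t x → IsSymmetric t

/-- `f` is a bijection from `D` onto `S` (as a set of ordered pairs). -/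
structure IsBijection (f D S : V) : Prop where
  isSet : IsSet f
  pairs : ∀ z : V, z ∈ f → ∃ x : V, x ∈ D ∧ ∃ y : V, y ∈ S ∧ z = pair x y
  total : ∀ x : V, x ∈ D → ∃! y : V, pair x y ∈ f
  onto : ∀ y : V, y ∈ S → ∃! x : V, pair x y ∈ f

/-- `D` is finite in the model: it is a set in bijection, in the model, with a natural number. -/
def FiniteInN (D : V) : Prop := IsSet D ∧ ∃ (n : ℕ) (f : V), InN f ∧ IsBijection f D (nat n)

/-- `D` is countable in the model: in bijection, in the model, with a subset of `ω` in the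
model. -/
def CountableInN (D : V) : Prop :=
  ∃ S f : V, IsSet S ∧ InN S ∧ Sub S omega ∧ InN f ∧ IsBijection f D S

/-- `(X, τ)` is a topological space in the model. -/
structure IsSpaceInN (X τ : V) : Prop where
  isSet : IsSet X
  inN : InN X
  isSet_top : IsSet τ
  inN_top : InN τ
  subset : ∀ U : V, U ∈ τ → IsSet U ∧ Sub U X
  empty : ∃ U : V, U ∈ τ ∧ ∀ z : V, z ∉ U
  whole : X ∈ τ
  inter : ∀ U W : V, U ∈ τ → W ∈ τ → ∃ Z : V, Z ∈ τ ∧ ∀ z : V, z ∈ Z ↔ z ∈ U ∧ z ∈ W
  union : ∀ O : V, IsSet O → InN O → Sub O τ →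
    ∃ Z : V, Z ∈ τ ∧ ∀ z : V, z ∈ Z ↔ ∃ U : V, U ∈ O ∧ z ∈ U

/-- `(X, τ)` is compact in the model: every open cover in the model has a finite subcover. -/
def IsCompactInN (X τ : V) : Prop :=
  ∀ O : V, IsSet O → InN O → Sub O τ → (∀ x : V, x ∈ X → ∃ U : V, U ∈ O ∧ x ∈ U) →
    ∃ O' : V, InN O' ∧ FiniteInN O' ∧ Sub O' O ∧ ∀ x : V, x ∈ X → ∃ U : V, U ∈ O' ∧ x ∈ U

/-- `d` is a metric on `X` in the model: `d` is in the model, it is (the graph of) a function
`ρ : X × X → ℝ`, and `ρ` satisfies the axioms of a metric. -/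
structure IsMetricInN (X d : V) (ρ : V → V → ℝ) : Prop where
  inN : InN d
  isSet : IsSet d
  graph : ∀ z : V, z ∈ d ↔ ∃ x : V, x ∈ X ∧ ∃ y : V, y ∈ X ∧ z = pair (pair x y) (real (ρ x y))
  nonneg : ∀ x y : V, x ∈ X → y ∈ X → 0 ≤ ρ x y
  eq_iff : ∀ x y : V, x ∈ X → y ∈ X → (ρ x y = 0 ↔ x = y)
  symm : ∀ x y : V, x ∈ X → y ∈ X → ρ x y = ρ y x
  triangle : ∀ x y z : V, x ∈ X → y ∈ X → z ∈ X → ρ x z ≤ ρ x y + ρ y z

/-- `(X, τ)` is metrizable in the model: some metric on `X` in the model induces `τ`, i.e. the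
members of `τ` are exactly the subsets of `X` in the model which are open for the metric. -/
def IsMetrizableInN (X τ : V) : Prop :=
  ∃ (d : V) (ρ : V → V → ℝ), IsMetricInN X d ρ ∧
    ∀ U : V, U ∈ τ ↔ (IsSet U ∧ InN U ∧ Sub U X ∧
      ∀ x : V, x ∈ U → ∃ ε : ℝ, 0 < ε ∧ ∀ y : V, y ∈ X → ρ x y < ε → y ∈ U)

/-- `(X, τ)` is separable in the model: it has a dense subset in the model that is countable in
the model. -/
def IsSeparableInN (X τ : V) : Prop :=
  ∃ D : V, IsSet D ∧ InN D ∧ Sub D X ∧ CountableInN D ∧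
    ∀ U : V, U ∈ τ → (∃ x : V, x ∈ U) → ∃ x : V, x ∈ D ∧ x ∈ U

/-- The statement `M(C, S)` in the model: every compact metrizable space is separable. -/
def MCSHoldsInN : Prop :=
  ∀ X τ : V, IsSpaceInN X τ → IsCompactInN X τ → IsMetrizableInN X τ → IsSeparableInN X τ

end Pool.Agent.MP_0aaa5a_lc
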