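import Pool.Agent.Lib.MP_0aaa5a_lc.Defs

/-!
# Isometric actions of the homeomorphism group of the Cantor cube

Every isometric action of the homeomorphism group of the Cantor cube on a totally bounded
metric space is trivial.
-/

set_option autoImplicit false

namespace Pool.Agent.MP_0aaa5a_lc

open Topology

theorem hmul_apply {X : Type*} [TopologicalSpace X] (f g : X ≃ₜ X) (x : X) :
    (f * g) x = f (g x) := rfl

section Action

variable {X : Type*} (A : (Cantor ≃ₜ Cantor) →* Equiv.Perm X) (ρ : X → X → ℝ)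

/-- `s` moves every point by less than `ε`. -/
def Near (ε : ℝ) (s : Cantor ≃ₜ Cantor) : Prop := ∀ x : X, ρ (A s x) x < ε

variable {A ρ}

theorem exists_pow_near
    (symm : ∀ x y, ρ x y = ρ y x) (tri : ∀ x y z, ρ x z ≤ ρ x y + ρ y z)
    (inv : ∀ g x y, ρ (A g x) (A g y) = ρ x y)
    (tb : ∀ ε : ℝ, 0 < ε → ∃ F : Finset X, ∀ x, ∃ y ∈ F, ρ x y < ε)
    (s : Cantor ≃ₜ Cantor) {ε : ℝ} (hε : 0 < ε) : ∃ k : ℕ, 1 ≤ k ∧ Near A ρ ε (s ^ k) := by
  obtain ⟨F, hF⟩ := tb (ε / 4) (by linarith)
  have hc : ∀ i : ℕ, ∀ a : F, ∃ y : F, ρ (A (s ^ i) a.1) y.1 < ε / 4 := by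
    intro i a
    obtain ⟨y, hy, h⟩ := hF (A (s ^ i) a.1)
    exact ⟨⟨y, hy⟩, h⟩
  choose c hc using hc
  have key : ∀ i j : ℕ, c i = c j → ∀ x : X, ρ (A (s ^ j) x) (A (s ^ i) x) < ε := by
    intro i j hij x
    obtain ⟨a, ha, hxa⟩ := hF x
    have h1 : ρ (A (s ^ j) x) (A (s ^ j) a) < ε / 4 := by rw [inv]; exact hxa
    have h2 : ρ (A (s ^ j) a) (c j ⟨a, ha⟩).1 < ε / 4 := hc j ⟨a, ha⟩
    have h3 : ρ (c j ⟨a, ha⟩).1 (A (s ^ i) a) < ε / 4 := by
      rw [symm, ← hij]; exact hc i ⟨a, ha⟩
    have h4 : ρ (A (s ^ i) a) (A (s ^ i) x) < ε / 4 := by rw [inv, symm]; exact hxa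
    have t1 := tri (A (s ^ j) x) (A (s ^ j) a) (A (s ^ i) x)
    have t2 := tri (A (s ^ j) a) (c j ⟨a, ha⟩).1 (A (s ^ i) x)
    have t3 := tri (c j ⟨a, ha⟩).1 (A (s ^ i) a) (A (s ^ i) x)
    linarith
  obtain ⟨i, j, hne, hij⟩ := Finite.exists_ne_map_eq_of_infinite c
  wlog hlt : i < j generalizing i j
  · exact this j i hne.symm hij.symm (lt_of_le_of_ne (not_lt.1 hlt) hne.symm)
  refine ⟨j - i, by omega, fun x => ?_⟩
  have h := key i j hij (A (s ^ i)⁻¹ x)
  have e1 : A (s ^ i) (A (s ^ i)⁻¹ x) = x := by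
    rw [← Equiv.Perm.mul_apply, ← map_mul, mul_inv_cancel, map_one, Equiv.Perm.one_apply]
  have e2 : A (s ^ j) (A (s ^ i)⁻¹ x) = A (s ^ (j - i)) x := by
    have : s ^ j = s ^ (j - i) * s ^ i := by rw [← pow_add, Nat.sub_add_cancel hlt.le]
    rw [this, map_mul, Equiv.Perm.mul_apply, e1]
  rwa [e1, e2] at h

theorem comm_near
    (symm : ∀ x y, ρ x y = ρ y x) (tri : ∀ x y z, ρ x z ≤ ρ x y + ρ y z)
    (inv : ∀ g x y, ρ (A g x) (A g y) = ρ x y)
    (f s : Cantor ≃ₜ Cantor) {ε : ℝ} (hs : Near A ρ ε s) :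
    Near A ρ (2 * ε) (f * s * f⁻¹ * s⁻¹) := by
  intro x
  have e1 : A (f * s * f⁻¹ * s⁻¹) x = A f (A s (A f⁻¹ (A s⁻¹ x))) := by
    rw [map_mul, map_mul, map_mul, Equiv.Perm.mul_apply, Equiv.Perm.mul_apply,
      Equiv.Perm.mul_apply]
  have e2 : A f (A f⁻¹ (A s⁻¹ x)) = A s⁻¹ x := by
    rw [← Equiv.Perm.mul_apply, ← map_mul, mul_inv_cancel, map_one, Equiv.Perm.one_apply]
  have e3 : A s (A s⁻¹ x) = x := by
    rw [← Equiv.Perm.mul_apply, ← map_mul, mul_inv_cancel, map_one, Equiv.Perm.one_apply]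
  have h1 : ρ (A f (A s (A f⁻¹ (A s⁻¹ x)))) (A f (A f⁻¹ (A s⁻¹ x))) < ε := by
    rw [inv]; exact hs _
  have h2 : ρ (A s⁻¹ x) x < ε := by
    rw [← inv s, e3, symm]; exact hs x
  have h3 := tri (A f (A s (A f⁻¹ (A s⁻¹ x)))) (A f (A f⁻¹ (A s⁻¹ x))) x
  rw [e2] at h1 h3
  rw [e1]
  linarith

end Action

/-! ### The block decomposition -/

section Block

variable (z : Cantor) (l : ℕ)

/-- The cylinder of all `x` agreeing with `z` below `l`. -/
def Cyl : Set Cantor := {x | ∀ m < l, x m = z m}

/-- The complement of the cylinder, as a type. -/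
abbrev Out : Type := {y : Cantor // y ∉ Cyl z l}

theorem isOpen_cyl : IsOpen (Cyl z l) := by
  have : Cyl z l = ⋂ m ∈ Finset.range l, {x : Cantor | x m = z m} := by
    ext x
    simp [Cyl]
  rw [this]
  refine isOpen_biInter_finset (fun m _ => ?_)
  have hc : Continuous fun x : Cantor => x m := continuous_apply m
  exact (isOpen_discrete {z m}).preimage hc

theorem isClosed_cyl : IsClosed (Cyl z l) := by
  have : Cyl z l = ⋂ m ∈ Finset.range l, {x : Cantor | x m = z m} := by
    ext x
    simp [Cyl]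
  rw [this]
  refine isClosed_biInter (fun m _ => ?_)
  have hc : Continuous fun x : Cantor => x m := continuous_apply m
  exact (isClosed_discrete {z m}).preimage hc

/-- `i` blocks `z|l` followed by `y`. -/
def dec (i : ℕ) (y : Cantor) : Cantor := fun m => if m < l * i then z (m % l) else y (m - l * i)

/-- Infinitely many blocks `z|l`. -/
def infPt : Cantor := fun m => z (m % l)

variable {z l}

theorem dec_zero (y : Cantor) : dec z l 0 y = y := by
  funext m
  simp [dec]

theorem dec_mem_cyl {i : ℕ} (hi : 1 ≤ i) (y : Cantor) : dec z l i y ∈ Cyl z l := by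
  intro m hm
  have h1 : m < l * i := lt_of_lt_of_le hm (Nat.le_mul_of_pos_right l hi)
  simp [dec, h1, Nat.mod_eq_of_lt hm]

theorem infPt_mem_cyl : infPt z l ∈ Cyl z l := by
  intro m hm
  simp [infPt, Nat.mod_eq_of_lt hm]

/-- The coding map from the one-point compactification. -/
noncomputable def code (z : Cantor) (l : ℕ) : OnePoint (ℕ × Out z l) → Cantor
  | none => infPt z l
  | some p => dec z l p.1 p.2.1

theorem code_infty : code z l OnePoint.infty = infPt z l := rfl

theorem code_coe (p : ℕ × Out z l) : code z l (p : OnePoint (ℕ × Out z l)) = dec z l p.1 p.2.1 :=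
  rfl

theorem dec_block (i m : ℕ) (y : Cantor) : dec z l i y (l * i + m) = y m := by
  simp [dec]

theorem dec_block_of_lt {i j m : ℕ} (hij : i < j) (hm : m < l) (y : Cantor) :
    dec z l j y (l * i + m) = z m := by
  have h1 : l * i + m < l * j := by
    calc l * i + m < l * i + l := by omega
      _ = l * (i + 1) := by ring
      _ ≤ l * j := Nat.mul_le_mul_left l hij
  simp [dec, h1, Nat.mod_eq_of_lt hm]

theorem infPt_block {i m : ℕ} (hm : m < l) : infPt z l (l * i + m) = z m := by
  simp [infPt, Nat.mod_eq_of_lt hm]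

theorem code_injective : Function.Injective (code z l) := by
  have h1 : ∀ (p : ℕ × Out z l), infPt z l ≠ dec z l p.1 p.2.1 := by
    intro p h
    apply p.2.2
    intro m hm
    rw [← dec_block (z := z) (l := l) p.1 m p.2.1, ← h, infPt_block hm]
  have h2 : ∀ (p q : ℕ × Out z l), p.1 < q.1 → dec z l p.1 p.2.1 ≠ dec z l q.1 q.2.1 := by
    intro p q hpq h
    apply p.2.2
    intro m hm
    rw [← dec_block (z := z) (l := l) p.1 m p.2.1, h, dec_block_of_lt hpq hm]
  intro a b h
  induction a using OnePoint.rec with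
  | infty =>
    induction b using OnePoint.rec with
    | infty => rfl
    | coe q => exact absurd h (h1 q)
  | coe p =>
    induction b using OnePoint.rec with
    | infty => exact absurd h.symm (h1 p)
    | coe q =>
      rw [code_coe, code_coe] at h
      rcases lt_trichotomy p.1 q.1 with hlt | heq | hgt
      · exact absurd h (h2 p q hlt)
      · congr 1
        refine Prod.ext heq (Subtype.ext ?_)
        funext m
        have := congrFun h (l * p.1 + m)
        rw [dec_block, heq, dec_block] at this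
        exact this
      · exact absurd h.symm (h2 q p hgt)

theorem code_surjective (hl : 1 ≤ l) : Function.Surjective (code z l) := by
  classical
  intro x
  by_cases h : ∃ i, (fun m => x (l * i + m)) ∉ Cyl z l
  · refine ⟨((Nat.find h, ⟨fun m => x (l * Nat.find h + m), Nat.find_spec h⟩) :
      ℕ × Out z l), ?_⟩
    rw [code_coe]
    funext m
    simp only [dec]
    split_ifs with hm
    · have hdiv : m / l < Nat.find h := by
        rw [Nat.div_lt_iff_lt_mul (by omega)]
        rw [mul_comm]; exact hm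
      have hmem := Nat.find_min h hdiv
      rw [not_not] at hmem
      have := hmem (m % l) (Nat.mod_lt _ (by omega))
      simp only at this
      rw [Nat.div_add_mod] at this
      exact this.symm
    · congr 1
      omega
  · push Not at h
    refine ⟨OnePoint.infty, ?_⟩
    rw [code_infty]
    funext m
    have := h (m / l) (m % l) (Nat.mod_lt _ (by omega))
    simp only at this
    rw [Nat.div_add_mod] at this
    exact this.symm

instance : CompactSpace (Out z l) := by
  have : IsClosed (Cyl z l)ᶜ := (isOpen_cyl z l).isClosed_compl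
  exact isCompact_iff_compactSpace.1 this.isCompact

theorem code_continuous (hl : 1 ≤ l) : Continuous (code z l) := by
  rw [OnePoint.continuous_iff]
  constructor
  · rw [code_infty, tendsto_pi_nhds]
    intro m
    rw [Filter.coclosedCompact_eq_cocompact]
    refine tendsto_nhds_of_eventually_eq ?_
    have hK : IsCompact ((Set.Iic (m + 1) : Set ℕ) ×ˢ (Set.univ : Set (Out z l))) :=
      (Set.finite_Iic (m + 1)).isCompact.prod isCompact_univ
    filter_upwards [hK.compl_mem_cocompact] with p hp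
    have hp1 : m + 1 < p.1 := by
      by_contra hcon
      exact hp ⟨not_lt.1 hcon, Set.mem_univ _⟩
    have h1 : m < l * p.1 := by nlinarith
    rw [code_coe]
    simp [dec, h1, infPt]
  · have : (fun x : ℕ × Out z l => code z l x) = fun x => dec z l x.1 x.2.1 := rfl
    rw [this, continuous_prod_of_discrete_left]
    intro i
    refine continuous_pi (fun m => ?_)
    simp only [dec]
    split_ifs with h
    · exact continuous_const
    · exact (continuous_apply _).comp continuous_subtype_val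

/-- The coding homeomorphism. -/
noncomputable def codeHomeo (z : Cantor) {l : ℕ} (hl : 1 ≤ l) :
    OnePoint (ℕ × Out z l) ≃ₜ Cantor :=
  Continuous.homeoOfEquivCompactToT2
    (f := Equiv.ofBijective (code z l) ⟨code_injective, code_surjective hl⟩) (code_continuous hl)

theorem codeHomeo_apply (hl : 1 ≤ l) (a : OnePoint (ℕ × Out z l)) :
    codeHomeo z hl a = code z l a := rfl

/-- Extension of a homeomorphism of `ℕ × Out` to the Cantor cube. -/
noncomputable def lift (z : Cantor) {l : ℕ} (hl : 1 ≤ l)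
    (Φ : (ℕ × Out z l) ≃ₜ (ℕ × Out z l)) : Cantor ≃ₜ Cantor :=
  (codeHomeo z hl).symm.trans (Φ.onePointCongr.trans (codeHomeo z hl))

theorem lift_apply_code (hl : 1 ≤ l) (Φ : (ℕ × Out z l) ≃ₜ (ℕ × Out z l)) (p : ℕ × Out z l) :
    lift z hl Φ (code z l p) = code z l (Φ p) := by
  unfold lift
  rw [Homeomorph.trans_apply, Homeomorph.trans_apply, ← codeHomeo_apply hl,
    Homeomorph.symm_apply_apply]
  rfl

theorem lift_apply_infty (hl : 1 ≤ l) (Φ : (ℕ × Out z l) ≃ₜ (ℕ × Out z l)) :
    lift z hl Φ (code z l OnePoint.infty) = code z l OnePoint.infty := by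
  unfold lift
  rw [Homeomorph.trans_apply, Homeomorph.trans_apply, ← codeHomeo_apply hl,
    Homeomorph.symm_apply_apply]
  rfl

theorem ext_code (hl : 1 ≤ l) {f g : Cantor ≃ₜ Cantor}
    (h1 : ∀ p : ℕ × Out z l, f (code z l p) = g (code z l p))
    (h2 : f (code z l OnePoint.infty) = g (code z l OnePoint.infty)) : f = g := by
  apply Homeomorph.ext
  intro x
  obtain ⟨a, rfl⟩ := code_surjective (z := z) hl x
  induction a using OnePoint.rec with
  | infty => exact h2
  | coe p => exact h1 p

theorem lift_mul (hl : 1 ≤ l) (Φ Ψ : (ℕ × Out z l) ≃ₜ (ℕ × Out z l)) :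
    lift z hl (Φ * Ψ) = lift z hl Φ * lift z hl Ψ := by
  apply ext_code (z := z) hl
  · intro p
    rw [hmul_apply, lift_apply_code, lift_apply_code, lift_apply_code]
    rfl
  · rw [hmul_apply, lift_apply_infty, lift_apply_infty, lift_apply_infty]

theorem lift_one (hl : 1 ≤ l) : lift z hl (1 : (ℕ × Out z l) ≃ₜ (ℕ × Out z l)) = 1 := by
  apply ext_code (z := z) hl
  · intro p
    rw [lift_apply_code]
    rfl
  · rw [lift_apply_infty]
    rfl

/-- `lift` as a group homomorphism. -/
noncomputable def liftHom (z : Cantor) {l : ℕ} (hl : 1 ≤ l) :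
    ((ℕ × Out z l) ≃ₜ (ℕ × Out z l)) →* (Cantor ≃ₜ Cantor) where
  toFun := lift z hl
  map_one' := lift_one hl
  map_mul' := lift_mul hl

end Block

section Shift

/-- A bi-infinite shift of `ℕ`. -/
def shift : Equiv.Perm ℕ :=
  (Equiv.intEquivNat.symm.trans (Equiv.addRight (1 : ℤ))).trans Equiv.intEquivNat

theorem shift_pow (k n : ℕ) :
    (shift ^ k) n = Equiv.intEquivNat (Equiv.intEquivNat.symm n + (k : ℤ)) := by
  induction k with
  | zero => simp
  | succ k ih =>
    rw [pow_succ', Equiv.Perm.mul_apply, ih]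
    simp only [shift, Equiv.trans_apply, Equiv.symm_apply_apply, Equiv.coe_addRight]
    congr 1
    push_cast
    ring

theorem shift_pow_ne {k : ℕ} (hk : 1 ≤ k) (n : ℕ) : (shift ^ k) n ≠ n := by
  rw [shift_pow]
  intro h
  have h1 := congrArg Equiv.intEquivNat.symm h
  rw [Equiv.symm_apply_apply] at h1
  omega

end Shift

section Copies

variable {U : Type*} [TopologicalSpace U]

/-- The homeomorphism acting as `g` on the copies of `U` with index in `J`. -/
def copies (g : U ≃ₜ U) (J : ℕ → Bool) : (ℕ × U) ≃ₜ (ℕ × U) where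
  toFun p := (p.1, cond (J p.1) (g p.2) p.2)
  invFun p := (p.1, cond (J p.1) (g.symm p.2) p.2)
  left_inv p := by
    refine Prod.ext rfl ?_
    show cond (J p.1) (g.symm (cond (J p.1) (g p.2) p.2)) (cond (J p.1) (g p.2) p.2) = p.2
    cases J p.1 <;> simp
  right_inv p := by
    refine Prod.ext rfl ?_
    show cond (J p.1) (g (cond (J p.1) (g.symm p.2) p.2)) (cond (J p.1) (g.symm p.2) p.2) = p.2
    cases J p.1 <;> simp
  continuous_toFun := by
    rw [continuous_prod_of_discrete_left]
    intro i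
    refine continuous_const.prodMk ?_
    show Continuous fun x : U => cond (J i) (g x) x
    cases J i
    · exact continuous_id
    · exact g.continuous
  continuous_invFun := by
    rw [continuous_prod_of_discrete_left]
    intro i
    refine continuous_const.prodMk ?_
    show Continuous fun x : U => cond (J i) (g.symm x) x
    cases J i
    · exact continuous_id
    · exact g.symm.continuous

/-- The homeomorphism permuting the copies of `U`. -/
def permute (U : Type*) [TopologicalSpace U] (π : Equiv.Perm ℕ) : (ℕ × U) ≃ₜ (ℕ × U) where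
  toFun p := (π p.1, p.2)
  invFun p := (π.symm p.1, p.2)
  left_inv p := by simp
  right_inv p := by simp
  continuous_toFun := by
    rw [continuous_prod_of_discrete_left]
    intro i
    have h : Continuous fun x : U => ((π i, x) : ℕ × U) := by fun_prop
    exact h
  continuous_invFun := by
    rw [continuous_prod_of_discrete_left]
    intro i
    have h : Continuous fun x : U => ((π.symm i, x) : ℕ × U) := by fun_prop
    exact h

theorem permute_pow (π : Equiv.Perm ℕ) (k : ℕ) (p : ℕ × U) :
    ((permute U π) ^ k) p = ((π ^ k) p.1, p.2) := by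
  induction k with
  | zero => rfl
  | succ k ih =>
    rw [pow_succ', hmul_apply, ih, pow_succ', Equiv.Perm.mul_apply]
    rfl

/-- The commutator identity (Eilenberg swindle). -/
theorem swindle (g : U ≃ₜ U) {k : ℕ} (hk : 1 ≤ k) :
    ∃ J : ℕ → Bool, copies g (fun i => i == 0) * ((permute U shift) ^ k * copies g J) =
      copies g J * (permute U shift) ^ k := by
  classical
  let J : ℕ → Bool := fun i => decide (∃ j : ℕ, (shift ^ (k * j)) 0 = i)
  refine ⟨J, ?_⟩
  have hJ : ∀ i, J ((shift ^ k) i) = (J i || ((shift ^ k) i == 0)) := by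
    intro i
    rw [Bool.eq_iff_iff]
    simp only [J, decide_eq_true_eq, Bool.or_eq_true, beq_iff_eq]
    constructor
    · rintro ⟨j, hj⟩
      cases j with
      | zero => exact Or.inr (by simpa using hj.symm)
      | succ j =>
        refine Or.inl ⟨j, ?_⟩
        have : shift ^ (k * (j + 1)) = shift ^ k * shift ^ (k * j) := by
          rw [← pow_add]; congr 1; ring
        rw [this, Equiv.Perm.mul_apply] at hj
        exact (shift ^ k).injective hj
    · rintro (⟨j, hj⟩ | h)
      · refine ⟨j + 1, ?_⟩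
        have : shift ^ (k * (j + 1)) = shift ^ k * shift ^ (k * j) := by
          rw [← pow_add]; congr 1; ring
        rw [this, Equiv.Perm.mul_apply, hj]
      · exact ⟨0, by simpa using h.symm⟩
  have hJ0 : ∀ i, (shift ^ k) i = 0 → J i = false := by
    intro i hi
    simp only [J, decide_eq_false_iff_not]
    rintro ⟨j, hj⟩
    rw [← hj, ← Equiv.Perm.mul_apply, ← pow_add] at hi
    exact shift_pow_ne (by nlinarith [Nat.zero_le (k * j)]) 0 hi
  apply Homeomorph.ext
  rintro ⟨i, y⟩
  rw [hmul_apply, hmul_apply, hmul_apply, permute_pow, permute_pow]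
  show ((shift ^ k) i, cond ((shift ^ k) i == 0) (g (cond (J i) (g y) y)) (cond (J i) (g y) y)) =
    ((shift ^ k) i, cond (J ((shift ^ k) i)) (g y) y)
  rw [hJ]
  refine Prod.ext rfl ?_
  by_cases h0 : (shift ^ k) i = 0
  · rw [hJ0 i h0]
    simp [h0]
  · have : ((shift ^ k) i == 0) = false := by simpa using h0
    rw [this]
    simp

end Copies

section FixCylinder

/-- A homeomorphism fixing a cylinder pointwise restricts to the complement. -/
def restrictOut {z : Cantor} {l : ℕ} (g : Cantor ≃ₜ Cantor) (hg : ∀ x ∈ Cyl z l, g x = x) :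
    Out z l ≃ₜ Out z l :=
  g.subtype (fun x => by
    constructor
    · intro hx hgx
      have h1 : g (g x) = g x := hg _ hgx
      have h2 : g x = x := g.injective h1
      rw [h2] at hgx
      exact hx hgx
    · intro hx h
      apply hx
      rw [hg x h]
      exact h)

theorem lift_copies_zero {z : Cantor} {l : ℕ} (hl : 1 ≤ l) (g : Cantor ≃ₜ Cantor)
    (hg : ∀ x ∈ Cyl z l, g x = x) :
    lift z hl (copies (restrictOut g hg) (fun i => i == 0)) = g := by
  apply ext_code (z := z) hl
  · rintro ⟨i, y⟩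
    rw [lift_apply_code, code_coe, code_coe]
    cases i with
    | zero =>
      show dec z l 0 (restrictOut g hg y).1 = g (dec z l 0 y.1)
      rw [dec_zero, dec_zero]
      rfl
    | succ i =>
      show dec z l (i + 1) y.1 = g (dec z l (i + 1) y.1)
      rw [hg _ (dec_mem_cyl (by omega) _)]
  · rw [lift_apply_infty, code_infty, hg _ infPt_mem_cyl]

theorem exists_commutator {z : Cantor} {l : ℕ} (hl : 1 ≤ l) (g : Cantor ≃ₜ Cantor)
    (hg : ∀ x ∈ Cyl z l, g x = x) :
    ∃ s : Cantor ≃ₜ Cantor, ∀ k : ℕ, 1 ≤ k →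
      ∃ f : Cantor ≃ₜ Cantor, g = f * s ^ k * f⁻¹ * (s ^ k)⁻¹ := by
  refine ⟨liftHom z hl (permute _ shift), fun k hk => ?_⟩
  obtain ⟨J, hJ⟩ := swindle (restrictOut g hg) hk
  refine ⟨liftHom z hl (copies (restrictOut g hg) J), ?_⟩
  have h1 := congrArg (liftHom z hl) hJ
  rw [map_mul, map_mul, map_mul, map_pow] at h1
  have h2 : liftHom z hl (copies (restrictOut g hg) (fun i => i == 0)) = g :=
    lift_copies_zero hl g hg
  rw [h2] at h1
  rw [eq_mul_inv_iff_mul_eq, eq_mul_inv_iff_mul_eq, mul_assoc]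
  exact h1

end FixCylinder

section Main

variable {X : Type*} {A : (Cantor ≃ₜ Cantor) →* Equiv.Perm X} {ρ : X → X → ℝ}

theorem trivial_of_fix_cyl
    (symm : ∀ x y, ρ x y = ρ y x) (tri : ∀ x y z, ρ x z ≤ ρ x y + ρ y z)
    (inv : ∀ g x y, ρ (A g x) (A g y) = ρ x y)
    (eq0 : ∀ x y, ρ x y ≤ 0 → x = y)
    (tb : ∀ ε : ℝ, 0 < ε → ∃ F : Finset X, ∀ x, ∃ y ∈ F, ρ x y < ε)
    {z : Cantor} {l : ℕ} (g : Cantor ≃ₜ Cantor)
    (hg : ∀ x ∈ Cyl z l, g x = x) : A g = 1 := by
  have hg' : ∀ x ∈ Cyl z (l + 1), g x = x := fun x hx => hg x (fun m hm => hx m (by omega))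
  obtain ⟨s, hs⟩ := exists_commutator (by omega) g hg'
  apply Equiv.ext
  intro x
  rw [Equiv.Perm.one_apply]
  apply eq0
  by_contra hcon
  push Not at hcon
  obtain ⟨k, hk1, hk2⟩ := exists_pow_near symm tri inv tb s (half_pos hcon)
  obtain ⟨f, hf⟩ := hs k hk1
  have h := comm_near symm tri inv f (s ^ k) hk2 x
  rw [← hf] at h
  linarith

/-- The homeomorphism exchanging `V` and `g V` by means of `g`. -/
noncomputable def swapHomeo (g : Cantor ≃ₜ Cantor) (W : Set Cantor) (hW : IsClopen W)
    (hd : ∀ x ∈ W, g x ∉ W) : Cantor ≃ₜ Cantor := by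
  classical
  let f : Cantor → Cantor := fun x => if x ∈ W then g x else if g.symm x ∈ W then g.symm x else x
  have hff : ∀ x, f (f x) = x := by
    intro x
    simp only [f]
    by_cases h1 : x ∈ W
    · have h2 := hd x h1
      simp [h1, h2]
    · by_cases h2 : g.symm x ∈ W
      · simp [h1, h2]
      · simp [h1, h2]
  have hfc : Continuous f := by
    have hW' : IsClopen (g.symm ⁻¹' W) := hW.preimage g.symm.continuous
    refine Continuous.if (fun a ha => ?_) g.continuous
      (Continuous.if (fun a ha => ?_) g.symm.continuous continuous_id)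
    · have : frontier {a : Cantor | a ∈ W} = ∅ := hW.frontier_eq
      rw [this] at ha
      exact absurd ha (Set.notMem_empty a)
    · have : frontier {a : Cantor | g.symm a ∈ W} = ∅ := hW'.frontier_eq
      rw [this] at ha
      exact absurd ha (Set.notMem_empty a)
  exact
    { toFun := f
      invFun := f
      left_inv := hff
      right_inv := hff
      continuous_toFun := hfc
      continuous_invFun := hfc }

open Classical in
theorem swapHomeo_apply (g : Cantor ≃ₜ Cantor) (W : Set Cantor) (hW : IsClopen W)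
    (hd : ∀ x ∈ W, g x ∉ W) (x : Cantor) :
    swapHomeo g W hW hd x = if x ∈ W then g x else if g.symm x ∈ W then g.symm x else x := rfl

theorem exists_cyl_subset {O : Set Cantor} (hO : IsOpen O) {x : Cantor} (hx : x ∈ O) :
    ∃ l : ℕ, Cyl x l ⊆ O := by
  obtain ⟨I, u, hu, hsub⟩ := isOpen_pi_iff.1 hO x hx
  refine ⟨I.sup id + 1, fun y hy => hsub ?_⟩
  intro i hi
  rw [hy i (Nat.lt_succ_of_le (Finset.le_sup (f := id) hi))]
  exact (hu i hi).2

theorem trivial_action
    (symm : ∀ x y, ρ x y = ρ y x) (tri : ∀ x y z, ρ x z ≤ ρ x y + ρ y z)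
    (inv : ∀ g x y, ρ (A g x) (A g y) = ρ x y)
    (eq0 : ∀ x y, ρ x y ≤ 0 → x = y)
    (tb : ∀ ε : ℝ, 0 < ε → ∃ F : Finset X, ∀ x, ∃ y ∈ F, ρ x y < ε)
    (g : Cantor ≃ₜ Cantor) : A g = 1 := by
  by_cases hg1 : ∀ x, g x = x
  · have : g = 1 := Homeomorph.ext hg1
    rw [this, map_one]
  · push Not at hg1
    obtain ⟨x, hx⟩ := hg1
    -- a third point
    obtain ⟨w, hw⟩ : ∃ w : Cantor, w ≠ x ∧ w ≠ g x := by
      classical
      obtain ⟨w, hw⟩ := Infinite.exists_notMem_finset ({x, g x} : Finset Cantor)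
      simp only [Finset.mem_insert, Finset.mem_singleton, not_or] at hw
      exact ⟨w, hw⟩
    obtain ⟨O1, O2, hO1, hO2, hx1, hx2, hdisj⟩ := t2_separation hx
    -- `O1 ∋ g x`, `O2 ∋ x`
    have hopen : IsOpen ((O2 ∩ {w}ᶜ) ∩ g ⁻¹' (O1 ∩ {w}ᶜ)) :=
      (hO2.inter isOpen_compl_singleton).inter
        ((hO1.inter isOpen_compl_singleton).preimage g.continuous)
    have hmem : x ∈ (O2 ∩ {w}ᶜ) ∩ g ⁻¹' (O1 ∩ {w}ᶜ) :=
      ⟨⟨hx2, fun h => hw.1 h.symm⟩, ⟨hx1, fun h => hw.2 h.symm⟩⟩
    obtain ⟨l, hl⟩ := exists_cyl_subset hopen hmem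
    have hW : IsClopen (Cyl x l) := ⟨isClosed_cyl x l, isOpen_cyl x l⟩
    have hd : ∀ y ∈ Cyl x l, g y ∉ Cyl x l := by
      intro y hy hgy
      exact Set.disjoint_left.1 hdisj (hl hy).2.1 (hl hgy).1.1
    let k := swapHomeo g (Cyl x l) hW hd
    -- `k` fixes a neighbourhood of `w`
    have hw1 : w ∉ Cyl x l := fun h => (hl h).1.2 rfl
    have hw2 : g.symm w ∉ Cyl x l := by
      intro h
      have := (hl h).2.2
      rw [Homeomorph.apply_symm_apply] at this
      exact this rfl
    have hopen' : IsOpen ((Cyl x l)ᶜ ∩ (g.symm ⁻¹' (Cyl x l))ᶜ) :=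
      (isClosed_cyl x l).isOpen_compl.inter
        ((isClosed_cyl x l).preimage g.symm.continuous).isOpen_compl
    obtain ⟨l', hl'⟩ := exists_cyl_subset (x := w) hopen' ⟨hw1, hw2⟩
    have hk : ∀ y ∈ Cyl w l', k y = y := by
      intro y hy
      have h1 : y ∉ Cyl x l := (hl' hy).1
      have h2 : g.symm y ∉ Cyl x l := (hl' hy).2
      show swapHomeo g (Cyl x l) hW hd y = y
      rw [swapHomeo_apply, if_neg h1, if_neg h2]
    have hkg : ∀ y ∈ Cyl x l, (k * g) y = y := by
      intro y hy
      have h1 : g y ∉ Cyl x l := hd y hy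
      have h2 : g.symm (g y) ∈ Cyl x l := by rwa [Homeomorph.symm_apply_apply]
      show swapHomeo g (Cyl x l) hW hd (g y) = y
      rw [swapHomeo_apply, if_neg h1, if_pos h2, Homeomorph.symm_apply_apply]
    have e1 : A k = 1 := trivial_of_fix_cyl symm tri inv eq0 tb k hk
    have e2 : A (k * g) = 1 := trivial_of_fix_cyl symm tri inv eq0 tb (k * g) hkg
    rw [map_mul, e1, one_mul] at e2
    exact e2

end Main

end Pool.Agent.MP_0aaa5a_lc
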