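import Pool.Agent.Lib.MP_0aaa5a_lc.Defs

/-!
# Basic facts on the universe and the permutation model
-/

set_option autoImplicit false

namespace Pool.Agent.MP_0aaa5a_lc

open V

namespace V

/-- The class of a pre-set. -/
def mk (x : PreSet) : V := Quotient.mk PreSet.setoid x

theorem ind {p : V → Prop} (h : ∀ y : PreSet, p (mk y)) (x : V) : p x :=
  Quotient.inductionOn x h

theorem mk_eq {x y : PreSet} (h : PreSet.Equiv x y) : mk x = mk y := Quotient.sound h

theorem equiv_of_mk_eq {x y : PreSet} (h : mk x = mk y) : PreSet.Equiv x y := Quotient.exact h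

theorem mk_out (x : V) : mk x.out = x := Quotient.out_eq x

theorem mem_mk {x y : PreSet} : mk x ∈ mk y ↔ PreSet.Mem x y := Iff.rfl

theorem exists_index (x : V) : ∃ (ι : Type) (f : ι → V), ∀ z : V, z ∈ x ↔ ∃ i, f i = z := by
  induction x using V.ind with
  | h y =>
    cases y with
    | atom a =>
      refine ⟨Empty, fun i => i.elim, fun z => ?_⟩
      induction z using V.ind with
      | h z =>
        constructor
        · intro h; exact h.elim
        · rintro ⟨i, -⟩; exact i.elim
    | mk ι f =>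
      refine ⟨ι, fun i => mk (f i), fun z => ?_⟩
      induction z using V.ind with
      | h z =>
        rw [mem_mk]
        constructor
        · rintro ⟨i, hi⟩
          exact ⟨i, mk_eq hi.symm⟩
        · rintro ⟨i, hi⟩
          exact ⟨i, (equiv_of_mk_eq hi).symm⟩

theorem mem_ofFam {ι : Type} {f : ι → V} {z : V} : z ∈ ofFam f ↔ ∃ i, f i = z := by
  induction z using V.ind with
  | h z =>
    have h0 : ofFam f = mk (PreSet.mk ι (fun i => (f i).out)) := rfl
    rw [h0, mem_mk]
    constructor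
    · rintro ⟨i, hi⟩
      refine ⟨i, ?_⟩
      rw [← mk_out (f i)]
      exact mk_eq hi.symm
    · rintro ⟨i, hi⟩
      refine ⟨i, ?_⟩
      have : mk (f i).out = mk z := by rw [mk_out]; exact hi
      exact (equiv_of_mk_eq this).symm

theorem isSet_ofFam {ι : Type} (f : ι → V) : IsSet (ofFam f) := trivial

theorem not_isSet_atom (a : Atom) : ¬ IsSet (atom a) := fun h => h

theorem not_mem_atom (a : Atom) (z : V) : z ∉ atom a := by
  induction z using V.ind with
  | h z => intro h; exact h

theorem ext {x y : V} (hx : IsSet x) (hy : IsSet y) (h : ∀ z, z ∈ x ↔ z ∈ y) : x = y := by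
  induction x using V.ind with
  | h x =>
    induction y using V.ind with
    | h y =>
      cases x with
      | atom a => exact hx.elim
      | mk ι f =>
        cases y with
        | atom b => exact hy.elim
        | mk κ g =>
          apply Quotient.sound
          constructor
          · intro i
            have h1 : mk (f i) ∈ mk (PreSet.mk ι f) := ⟨i, PreSet.Equiv.refl _⟩
            exact (h _).1 h1
          · intro j
            have h1 : mk (g j) ∈ mk (PreSet.mk κ g) := ⟨j, PreSet.Equiv.refl _⟩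
            obtain ⟨i, hi⟩ := (h _).2 h1
            exact ⟨i, hi.symm⟩

theorem cases (x : V) : (∃ a, x = atom a) ∨ IsSet x := by
  induction x using V.ind with
  | h x =>
    cases x with
    | atom a => exact Or.inl ⟨a, rfl⟩
    | mk ι f => exact Or.inr trivial

/-- Epsilon induction. -/
theorem eps_induction {p : V → Prop} (h : ∀ x : V, (∀ y : V, y ∈ x → p y) → p x) (x : V) : p x := by
  induction x using V.ind with
  | h x =>
    induction x with
    | atom a => exact h _ (fun y hy => absurd hy (not_mem_atom a y))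
    | mk ι f ih =>
      refine h _ (fun y hy => ?_)
      induction y using V.ind with
      | h y =>
        obtain ⟨i, hi⟩ := hy
        rw [mk_eq hi]
        exact ih i

theorem mem_irrefl (x : V) : x ∉ x := by
  have key : ∀ x : V, ∀ y : V, y = x → y ∉ x := by
    intro x
    induction x using eps_induction with
    | h x ih =>
      intro y hy hyx
      subst hy
      exact ih y hyx y rfl hyx
  exact key x x rfl

theorem mem_asymm {x y : V} (h1 : x ∈ y) (h2 : y ∈ x) : False := by
  have key : ∀ x : V, ∀ y : V, x ∈ y → y ∈ x → False := by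
    intro x
    induction x using eps_induction with
    | h x ih =>
      intro y h1 h2
      exact ih y h2 x h2 h1
  exact key x y h1 h2

/-- Separation. -/
theorem exists_sep (x : V) (p : V → Prop) : ∃ y : V, IsSet y ∧ ∀ z : V, z ∈ y ↔ z ∈ x ∧ p z := by
  obtain ⟨ι, f, hf⟩ := exists_index x
  refine ⟨ofFam (fun i : {i : ι // p (f i)} => f i.1), isSet_ofFam _, fun z => ?_⟩
  rw [mem_ofFam, hf]
  constructor
  · rintro ⟨i, rfl⟩
    exact ⟨⟨i.1, rfl⟩, i.2⟩
  · rintro ⟨⟨i, rfl⟩, hi⟩
    exact ⟨⟨i, hi⟩, rfl⟩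

/-- Separation, as a function. -/
noncomputable def sep (x : V) (p : V → Prop) : V := (exists_sep x p).choose

theorem isSet_sep (x : V) (p : V → Prop) : IsSet (sep x p) := (exists_sep x p).choose_spec.1

theorem mem_sep {x : V} {p : V → Prop} {z : V} : z ∈ sep x p ↔ z ∈ x ∧ p z :=
  (exists_sep x p).choose_spec.2 z

/-- Replacement. -/
theorem exists_image (x : V) (F : V → V) :
    ∃ y : V, IsSet y ∧ ∀ z : V, z ∈ y ↔ ∃ w : V, w ∈ x ∧ F w = z := by
  obtain ⟨ι, f, hf⟩ := exists_index x
  refine ⟨ofFam (fun i : ι => F (f i)), isSet_ofFam _, fun z => ?_⟩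
  rw [mem_ofFam]
  constructor
  · rintro ⟨i, rfl⟩
    exact ⟨f i, (hf _).2 ⟨i, rfl⟩, rfl⟩
  · rintro ⟨w, hw, rfl⟩
    obtain ⟨i, rfl⟩ := (hf w).1 hw
    exact ⟨i, rfl⟩

/-- Replacement, as a function. -/
noncomputable def image (x : V) (F : V → V) : V := (exists_image x F).choose

theorem isSet_image (x : V) (F : V → V) : IsSet (image x F) := (exists_image x F).choose_spec.1

theorem mem_image {x : V} {F : V → V} {z : V} : z ∈ image x F ↔ ∃ w : V, w ∈ x ∧ F w = z :=
  (exists_image x F).choose_spec.2 z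

/-! ### The action -/

theorem act_mk (φ : Equiv.Perm Atom) (x : PreSet) :
    act φ (mk x) = mk (PreSet.act φ x) := rfl

theorem pre_act_one (x : PreSet) : PreSet.act 1 x = x := by
  induction x with
  | atom a => rfl
  | mk ι f ih =>
    show PreSet.mk ι _ = _
    congr 1
    funext i
    exact ih i

theorem pre_act_mul (φ ψ : Equiv.Perm Atom) (x : PreSet) :
    PreSet.act (φ * ψ) x = PreSet.act φ (PreSet.act ψ x) := by
  induction x with
  | atom a => rfl
  | mk ι f ih =>
    show PreSet.mk ι _ = PreSet.mk ι _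
    congr 1
    funext i
    exact ih i

theorem act_one (x : V) : act 1 x = x := by
  induction x using V.ind with
  | h x => rw [act_mk, pre_act_one]

theorem act_mul (φ ψ : Equiv.Perm Atom) (x : V) : act (φ * ψ) x = act φ (act ψ x) := by
  induction x using V.ind with
  | h x => rw [act_mk, act_mk, act_mk, pre_act_mul]

theorem act_inv_act (φ : Equiv.Perm Atom) (x : V) : act φ⁻¹ (act φ x) = x := by
  rw [← act_mul, inv_mul_cancel, act_one]

theorem act_act_inv (φ : Equiv.Perm Atom) (x : V) : act φ (act φ⁻¹ x) = x := by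
  rw [← act_mul, mul_inv_cancel, act_one]

theorem act_injective (φ : Equiv.Perm Atom) {x y : V} (h : act φ x = act φ y) : x = y := by
  rw [← act_inv_act φ x, h, act_inv_act]

theorem act_mem_of_mem (φ : Equiv.Perm Atom) {x y : V} (h : x ∈ y) : act φ x ∈ act φ y := by
  induction x using V.ind with
  | h x =>
    induction y using V.ind with
    | h y =>
      cases y with
      | atom a => exact h.elim
      | mk ι f =>
        obtain ⟨i, hi⟩ := h
        exact ⟨i, PreSet.act_equiv φ hi⟩

theorem act_mem_act (φ : Equiv.Perm Atom) {x y : V} : act φ x ∈ act φ y ↔ x ∈ y := by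
  refine ⟨fun h => ?_, act_mem_of_mem φ⟩
  have := act_mem_of_mem φ⁻¹ h
  rwa [act_inv_act, act_inv_act] at this

theorem mem_act (φ : Equiv.Perm Atom) {x y : V} : x ∈ act φ y ↔ act φ⁻¹ x ∈ y := by
  rw [← act_mem_act φ⁻¹, act_inv_act]

theorem isSet_act (φ : Equiv.Perm Atom) {x : V} : IsSet (act φ x) ↔ IsSet x := by
  induction x using V.ind with
  | h x =>
    cases x with
    | atom a => exact Iff.rfl
    | mk ι f => exact Iff.rfl

theorem act_ofFam (φ : Equiv.Perm Atom) {ι : Type} (f : ι → V) :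
    act φ (ofFam f) = ofFam (fun i => act φ (f i)) := by
  apply ext ((isSet_act φ).2 (isSet_ofFam _)) (isSet_ofFam _)
  intro z
  rw [mem_act, mem_ofFam, mem_ofFam]
  constructor
  · rintro ⟨i, hi⟩
    exact ⟨i, by rw [hi, act_act_inv]⟩
  · rintro ⟨i, rfl⟩
    exact ⟨i, by rw [act_inv_act]⟩

theorem act_upair (φ : Equiv.Perm Atom) (x y : V) : act φ (upair x y) = upair (act φ x) (act φ y) := by
  unfold upair
  rw [act_ofFam]
  congr 1
  funext b
  cases b <;> rfl

theorem act_pair (φ : Equiv.Perm Atom) (x y : V) : act φ (pair x y) = pair (act φ x) (act φ y) := by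
  unfold pair
  rw [act_upair, act_upair, act_upair]

theorem nat_eq (n : ℕ) : nat n = ofFam (fun i : Fin n => nat i.1) := by
  rw [nat]

theorem act_nat (φ : Equiv.Perm Atom) (n : ℕ) : act φ (nat n) = nat n := by
  induction n using Nat.strong_induction_on with
  | _ n ih =>
    rw [nat_eq, act_ofFam]
    congr 1
    funext i
    exact ih i.1 i.2

theorem act_omega (φ : Equiv.Perm Atom) : act φ omega = omega := by
  unfold omega
  rw [act_ofFam]
  congr 1
  funext n
  exact act_nat φ n

theorem act_real (φ : Equiv.Perm Atom) (r : ℝ) : act φ (real r) = real r := by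
  unfold real
  rw [act_ofFam]
  congr 1
  funext n
  exact act_nat φ _

/-! ### Pairs and numbers -/

theorem mem_upair {x y z : V} : z ∈ upair x y ↔ z = x ∨ z = y := by
  unfold upair
  rw [mem_ofFam]
  constructor
  · rintro ⟨b, hb⟩
    cases b
    · exact Or.inr hb.symm
    · exact Or.inl hb.symm
  · rintro (rfl | rfl)
    · exact ⟨true, rfl⟩
    · exact ⟨false, rfl⟩

theorem isSet_upair (x y : V) : IsSet (upair x y) := isSet_ofFam _

theorem isSet_pair (x y : V) : IsSet (pair x y) := isSet_ofFam _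

theorem upair_self_inj {x y : V} (h : upair x x = upair y y) : x = y := by
  have h1 : x ∈ upair y y := h ▸ mem_upair.2 (Or.inl rfl)
  rcases mem_upair.1 h1 with h | h <;> exact h

theorem upair_right_inj {x y z : V} (h : upair x y = upair x z) : y = z := by
  have h1 : y ∈ upair x z := h ▸ mem_upair.2 (Or.inr rfl)
  have h2 : z ∈ upair x y := h ▸ mem_upair.2 (Or.inr rfl)
  rcases mem_upair.1 h1 with h1 | h1
  · rcases mem_upair.1 h2 with h2 | h2
    · rw [h1, h2]
    · exact h2.symm
  · exact h1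

theorem pair_inj {x y x' y' : V} (h : pair x y = pair x' y') : x = x' ∧ y = y' := by
  have h1 : upair x x ∈ pair x' y' := h ▸ mem_upair.2 (Or.inl rfl)
  have hx : x = x' := by
    rcases mem_upair.1 h1 with h1 | h1
    · exact upair_self_inj h1
    · have : x' ∈ upair x x := h1 ▸ mem_upair.2 (Or.inl rfl)
      rcases mem_upair.1 this with h | h <;> exact h.symm
  subst hx
  refine ⟨rfl, ?_⟩
  unfold pair at h
  exact upair_right_inj (upair_right_inj h)

theorem mem_nat {n : ℕ} {z : V} : z ∈ nat n ↔ ∃ m < n, nat m = z := by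
  rw [nat_eq, mem_ofFam]
  constructor
  · rintro ⟨i, hi⟩
    exact ⟨i.1, i.2, hi⟩
  · rintro ⟨m, hm, h⟩
    exact ⟨⟨m, hm⟩, h⟩

theorem nat_injective : Function.Injective nat := by
  intro n m h
  rcases lt_trichotomy n m with hlt | heq | hgt
  · have h1 : nat n ∈ nat m := mem_nat.2 ⟨n, hlt, rfl⟩
    rw [← h] at h1
    exact absurd h1 (mem_irrefl _)
  · exact heq
  · have h1 : nat m ∈ nat n := mem_nat.2 ⟨m, hgt, rfl⟩
    rw [h] at h1
    exact absurd h1 (mem_irrefl _)

theorem real_injective : Function.Injective real := by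
  have key : ∀ r s : ℝ, r < s → real r ≠ real s := by
    intro r s hrs h
    obtain ⟨q, hq1, hq2⟩ := exists_rat_btwn hrs
    have h1 : nat (Encodable.encode q) ∈ real s := mem_ofFam.2 ⟨⟨q, hq2⟩, rfl⟩
    rw [← h] at h1
    obtain ⟨⟨q', hq'⟩, hqq⟩ := mem_ofFam.1 h1
    have : q' = q := Encodable.encode_injective (nat_injective hqq)
    subst this
    exact absurd hq' (not_lt.2 hq1.le)
  intro r s h
  rcases lt_trichotomy r s with hlt | heq | hgt
  · exact absurd h (key r s hlt)
  · exact heq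
  · exact absurd h.symm (key s r hgt)

end V

open V

/-! ### Symmetric and hereditarily symmetric sets -/

theorem isInG_one : IsInG 1 := fun _ => ⟨Homeomorph.refl _, fun _ => rfl⟩

theorem IsInG.mul {φ ψ : Equiv.Perm Atom} (hφ : IsInG φ) (hψ : IsInG ψ) : IsInG (φ * ψ) := by
  intro n
  obtain ⟨h1, hh1⟩ := hφ n
  obtain ⟨h2, hh2⟩ := hψ n
  refine ⟨h2.trans h1, fun f => ?_⟩
  rw [Equiv.Perm.mul_apply, hh2, hh1]
  rfl

theorem IsInG.inv {φ : Equiv.Perm Atom} (hφ : IsInG φ) : IsInG φ⁻¹ := by
  intro n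
  obtain ⟨h1, hh1⟩ := hφ n
  refine ⟨h1.symm, fun f => ?_⟩
  rw [Equiv.Perm.inv_eq_iff_eq, hh1, Homeomorph.apply_symm_apply]

/-- `φ` is in `G` and fixes all atoms in `A_m` for `m < k`. -/
def FixLT (k : ℕ) (φ : Equiv.Perm Atom) : Prop := IsInG φ ∧ ∀ a : Atom, a.1 < k → φ a = a

theorem FixLT.mono {k l : ℕ} {φ : Equiv.Perm Atom} (h : FixLT l φ) (hkl : k ≤ l) : FixLT k φ :=
  ⟨h.1, fun a ha => h.2 a (lt_of_lt_of_le ha hkl)⟩

theorem FixLT.inv {k : ℕ} {φ : Equiv.Perm Atom} (h : FixLT k φ) : FixLT k φ⁻¹ :=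
  ⟨h.1.inv, fun a ha => by rw [Equiv.Perm.inv_eq_iff_eq]; exact (h.2 a ha).symm⟩

theorem FixLT.mul {k : ℕ} {φ ψ : Equiv.Perm Atom} (h : FixLT k φ) (h' : FixLT k ψ) :
    FixLT k (φ * ψ) :=
  ⟨h.1.mul h'.1, fun a ha => by rw [Equiv.Perm.mul_apply, h'.2 a ha, h.2 a ha]⟩

theorem isSymmetric_iff (x : V) :
    IsSymmetric x ↔ ∃ k : ℕ, ∀ φ : Equiv.Perm Atom, FixLT k φ → act φ x = x := by
  constructor
  · rintro ⟨E, ⟨S, hS⟩, h⟩
    refine ⟨S.sup id + 1, fun φ hφ => h φ hφ.1 (fun a ha => hφ.2 a ?_)⟩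
    exact Nat.lt_succ_of_le (Finset.le_sup (f := id) (hS a ha))
  · rintro ⟨k, hk⟩
    refine ⟨{a | a.1 < k}, ⟨Finset.range k, fun a ha => Finset.mem_range.2 ha⟩, ?_⟩
    intro φ hφ h
    exact hk φ ⟨hφ, h⟩

theorem InN.symmetric {x : V} (h : InN x) : IsSymmetric x := h x Relation.ReflTransGen.refl

theorem InN.mem {x y : V} (h : InN x) (hy : y ∈ x) : InN y := by
  intro t ht
  exact h t (Relation.ReflTransGen.trans ht (Relation.ReflTransGen.single hy))

theorem inN_iff (x : V) : InN x ↔ IsSymmetric x ∧ ∀ y : V, y ∈ x → InN y := by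
  constructor
  · intro h
    exact ⟨h.symmetric, fun y hy => h.mem hy⟩
  · rintro ⟨h1, h2⟩ t ht
    rcases Relation.ReflTransGen.cases_tail ht with h | ⟨c, hc1, hc2⟩
    · rw [h] at h1; exact h1
    · exact h2 c hc2 t hc1

theorem IsSymmetric.act {x : V} (h : IsSymmetric x) {φ : Equiv.Perm Atom} (hφ : IsInG φ) :
    IsSymmetric (V.act φ x) := by
  rw [isSymmetric_iff] at h ⊢
  obtain ⟨k, hk⟩ := h
  refine ⟨k, fun ψ hψ => ?_⟩
  have h1 : FixLT k (φ⁻¹ * ψ * φ) := by
    refine ⟨(hφ.inv.mul hψ.1).mul hφ, fun a ha => ?_⟩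
    rw [Equiv.Perm.mul_apply, Equiv.Perm.mul_apply, Equiv.Perm.inv_eq_iff_eq]
    refine hψ.2 _ ?_
    obtain ⟨h, hh⟩ := hφ a.1
    have : φ a = (a.1, h a.2) := hh a.2
    rw [this]
    exact ha
  have h2 := hk _ h1
  rw [V.act_mul, V.act_mul] at h2
  calc V.act ψ (V.act φ x) = V.act φ (V.act φ⁻¹ (V.act ψ (V.act φ x))) := by rw [V.act_act_inv]
    _ = V.act φ x := by rw [h2]

theorem InN.act {x : V} (h : InN x) {φ : Equiv.Perm Atom} (hφ : IsInG φ) : InN (V.act φ x) := by
  induction x using V.eps_induction with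
  | h x ih =>
    rw [inN_iff] at h ⊢
    refine ⟨h.1.act hφ, fun y hy => ?_⟩
    rw [V.mem_act] at hy
    have := ih _ hy (h.2 _ hy)
    rwa [V.act_act_inv] at this

theorem inN_of_fixed {x : V} (k : ℕ) (h : ∀ φ : Equiv.Perm Atom, FixLT k φ → V.act φ x = x)
    (h' : ∀ y : V, y ∈ x → InN y) : InN x :=
  (inN_iff x).2 ⟨(isSymmetric_iff x).2 ⟨k, h⟩, h'⟩

theorem inN_nat (n : ℕ) : InN (nat n) := by
  induction n using Nat.strong_induction_on with
  | _ n ih =>
    refine inN_of_fixed 0 (fun φ _ => act_nat φ n) (fun y hy => ?_)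
    obtain ⟨m, hm, rfl⟩ := mem_nat.1 hy
    exact ih m hm

theorem inN_upair {x y : V} (hx : InN x) (hy : InN y) : InN (upair x y) := by
  obtain ⟨k, hk⟩ := (isSymmetric_iff x).1 hx.symmetric
  obtain ⟨l, hl⟩ := (isSymmetric_iff y).1 hy.symmetric
  refine inN_of_fixed (max k l) (fun φ hφ => ?_) (fun z hz => ?_)
  · rw [act_upair, hk φ (hφ.mono (le_max_left _ _)), hl φ (hφ.mono (le_max_right _ _))]
  · rcases mem_upair.1 hz with rfl | rfl
    · exact hx
    · exact hy

theorem inN_pair {x y : V} (hx : InN x) (hy : InN y) : InN (pair x y) :=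
  inN_upair (inN_upair hx hx) (inN_upair hx hy)

end Pool.Agent.MP_0aaa5a_lc
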